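import Pool.Agent.V11186.LM.Main

set_option autoImplicit false

/-!
# MP_0bb520_al: connected components of completions of precompact locally minimal nilpotent groups

Let `G` be a nilpotent topological group that is precompact, sequentially complete and locally
minimal, with trivial connected component. Then its (compact) completion has trivial connected
component. This answers Q1 positively.
-/

namespace Pool.Agent.Results.MP_0bb520_al.CompletionComponent

open Topology Filter

/-- `G` is sequentially complete: every sequence that is Cauchy for the two-sided uniformity
converges in `G`. -/
def SequentiallyComplete (G : Type*) [Group G] [TopologicalSpace G] : Prop :=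
  ∀ u : ℕ → G, Tendsto (fun p : ℕ × ℕ => (u p.1)⁻¹ * u p.2) atTop (𝓝 1) →
    Tendsto (fun p : ℕ × ℕ => u p.1 * (u p.2)⁻¹) atTop (𝓝 1) → ∃ g, Tendsto u atTop (𝓝 g)

/-- `G` is locally minimal: there is a neighbourhood `U` of the identity such that every coarser
Hausdorff group topology for which `U` is still a neighbourhood of the identity coincides with the
given one. -/
def LocallyMinimal (G : Type*) [Group G] [t : TopologicalSpace G] : Prop :=
  ∃ U ∈ 𝓝 (1 : G), ∀ t' : TopologicalSpace G, @IsTopologicalGroup G t' _ → @T2Space G t' →
    t ≤ t' → U ∈ @nhds G t' 1 → t' = t

/-- `ι : G → K` exhibits the compact Hausdorff group `K` as the completion of the (precompact)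
group `G`: it is a dense embedding of topological groups. -/
structure IsCompactCompletion {G K : Type*} [Group G] [TopologicalSpace G] [Group K]
    [TopologicalSpace K] (ι : G →* K) : Prop where
  topologicalGroup : IsTopologicalGroup K
  compact : CompactSpace K
  t2 : T2Space K
  embedding : IsEmbedding ι
  dense : DenseRange ι

/-- Positive answer to MP_0bb520_al. -/
theorem result {G : Type*} [Group G] [TopologicalSpace G] [IsTopologicalGroup G] [T2Space G]
    [Group.IsNilpotent G] (hseq : SequentiallyComplete G) (hmin : LocallyMinimal G)
    (hc : connectedComponent (1 : G) = {1})
    {K : Type*} [Group K] [TopologicalSpace K] (ι : G →* K) (hK : IsCompactCompletion ι) :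
    connectedComponent (1 : K) = {1} := by
  haveI := hK.topologicalGroup
  haveI := hK.compact
  haveI := hK.t2
  exact Pool.Agent.V11186.LM.main ι hK.embedding hK.dense hseq hmin hc

end Pool.Agent.Results.MP_0bb520_al.CompletionComponent
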